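import Pool.Agent.H866R3.EdgeAsym
import Pool.Agent.H866R3.EdgeLower
import Pool.Agent.H866R3.Upper
set_option autoImplicit false
open Filter Topology SimpleGraph

namespace Pool.Agent.Results.MP_9bed89_co.EdgeAsymptotic

/-- The diagonal two-colour Ramsey number `r(G,G)` of a finite graph `G`: the least `N` such that for
every colouring of the edges of `K_N` with two colours (the edges of `H` and the edges of its
complement) one of the two colour classes contains a copy of `G`. -/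
noncomputable def ramseyNumber {k : ℕ} (G : SimpleGraph (Fin k)) : ℕ :=
  sInf {N : ℕ | ∀ H : SimpleGraph (Fin N), G.IsContained H ∨ G.IsContained Hᶜ}

/-- The least value of `r(G,G)` over all finite graphs `G` with exactly `n` edges. -/
noncomputable def R (n : ℕ) : ℕ :=
  sInf {r : ℕ | ∃ (k : ℕ) (G : SimpleGraph (Fin k)), G.edgeSet.ncard = n ∧ ramseyNumber G = r}

theorem ramseyNumber_spec {k : ℕ} (G : SimpleGraph (Fin k)) :
    ∀ H : SimpleGraph (Fin (ramseyNumber G)), G.IsContained H ∨ G.IsContained Hᶜ :=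
  Nat.sInf_mem (H866R3.ramsey_exists G)

/-- A graph with at least `n` edges contains a graph with exactly `n` edges. -/
theorem trim {V : Type} [Fintype V] (G : SimpleGraph V) (n : ℕ) (h : n ≤ G.edgeSet.ncard) :
    ∃ (k : ℕ) (G' : SimpleGraph (Fin k)), G'.edgeSet.ncard = n ∧ G'.IsContained G := by
  obtain ⟨S, hS, hSn⟩ := Set.exists_subset_card_eq h
  have hedge : (SimpleGraph.fromEdgeSet S).edgeSet = S := by
    rw [SimpleGraph.edgeSet_fromEdgeSet]
    ext e
    simp only [Set.mem_sdiff, and_iff_left_iff_imp]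
    intro he
    exact G.not_isDiag_of_mem_edgeSet (hS he)
  have hle : SimpleGraph.fromEdgeSet S ≤ G := by
    rw [← SimpleGraph.edgeSet_subset_edgeSet, hedge]
    exact hS
  refine ⟨Fintype.card V, (SimpleGraph.fromEdgeSet S).overFin rfl, ?_, ?_⟩
  · rw [← hSn, ← Nat.card_coe_set_eq, ← Nat.card_coe_set_eq]
    nth_rewrite 2 [← hedge]
    exact (Nat.card_congr ((SimpleGraph.fromEdgeSet S).overFinIso rfl).mapEdgeSet).symm
  · exact ((SimpleGraph.fromEdgeSet S).overFinIso rfl).isContained'.trans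
      (SimpleGraph.IsContained.of_le hle)

theorem R_le {n N q d s J : ℕ} (hc : H866R3.Edge.Cond q N d s J) (h : n ≤ J * d * s) :
    R n ≤ N := by
  obtain ⟨k, G, hG, hGK⟩ := trim (H866R3.Edge.KK J d s) n (h.trans (H866R3.Edge.KK_edges J d s))
  have h1 : R n ≤ ramseyNumber G := Nat.sInf_le ⟨k, G, hG, rfl⟩
  refine h1.trans (Nat.sInf_le ?_)
  intro H
  rcases H866R3.Edge.upper_comb q N d s J hc H with h2 | h2
  · exact Or.inl (hGK.trans h2)
  · exact Or.inr (hGK.trans h2)

theorem R_mem (n : ℕ) (hn : ∃ (k : ℕ) (G : SimpleGraph (Fin k)), G.edgeSet.ncard = n) :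
    ∃ (k : ℕ) (G : SimpleGraph (Fin k)), G.edgeSet.ncard = n ∧ ramseyNumber G = R n := by
  obtain ⟨k, G, hG⟩ := hn
  exact Nat.sInf_mem (s := {r : ℕ | ∃ (k : ℕ) (G : SimpleGraph (Fin k)),
    G.edgeSet.ncard = n ∧ ramseyNumber G = r}) ⟨_, k, G, hG, rfl⟩

theorem exists_edges (n : ℕ) : ∃ (k : ℕ) (G : SimpleGraph (Fin k)), G.edgeSet.ncard = n := by
  obtain ⟨k, G, hG, -⟩ := trim (H866R3.Edge.KK 1 1 n) n
    (by simpa using H866R3.Edge.KK_edges 1 1 n)
  exact ⟨k, G, hG⟩

theorem lower_real (e : ℝ) (he : 0 < e) (he1 : e < 1) : ∀ᶠ n : ℕ in atTop,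
    (1 - e) * (n / Real.logb 2 n) ≤ R n := by
  obtain ⟨n1, hn1⟩ := exists_nat_gt (1 / e)
  filter_upwards [eventually_ge_atTop (max n1 2)] with n hn
  have hn2 : 2 ≤ n := (le_max_right _ _).trans hn
  have hn3 : n1 ≤ n := (le_max_left _ _).trans hn
  have hnR : (2 : ℝ) ≤ n := by exact_mod_cast hn2
  have hne : 1 < e * n := by
    have : 1 / e < (n : ℝ) := lt_of_lt_of_le hn1 (by exact_mod_cast hn3)
    rw [div_lt_iff₀ he] at this
    linarith
  obtain ⟨k, G, hG, hGR⟩ := R_mem n (exists_edges n)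
  rw [← hGR]
  set N := ramseyNumber G with hN
  have hspec := ramseyNumber_spec G
  rw [← hN] at hspec
  have hN1 : 1 ≤ N := by
    by_contra h0
    have h0' : N = 0 := by omega
    have hk : k = 0 := by
      rcases hspec ⊥ with h1 | h1
      · obtain ⟨f⟩ := h1
        have := Fintype.card_le_of_injective _ f.injective
        simp only [Fintype.card_fin] at this
        omega
      · obtain ⟨f⟩ := h1
        have := Fintype.card_le_of_injective _ f.injective
        simp only [Fintype.card_fin] at this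
        omega
    subst hk
    have : G.edgeSet.ncard = 0 := by
      rw [Set.ncard_eq_zero]
      ext x
      induction x using Sym2.ind with
      | _ u v => exact u.elim0
    omega
  have hcomb := H866R3.Edge.lower_comb G hN1 hspec
  rw [hG] at hcomb
  have hNR : (1 : ℝ) ≤ N := by exact_mod_cast hN1
  have hN0 : (0 : ℝ) < N := by linarith
  have hlog : (n : ℝ) ≤ 1 + N * Real.logb 2 N := by
    have h1 : (2 : ℝ) ^ n ≤ 2 * (N : ℝ) ^ N := by exact_mod_cast hcomb
    have h2 : Real.logb 2 ((2 : ℝ) ^ n) ≤ Real.logb 2 (2 * (N : ℝ) ^ N) :=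
      Real.logb_le_logb_of_le (by norm_num) (by positivity) h1
    rw [Real.logb_pow, Real.logb_mul (by norm_num) (by positivity), Real.logb_pow,
      Real.logb_self_eq_one (by norm_num)] at h2
    linarith
  by_contra hcon
  push Not at hcon
  set ℓ := Real.logb 2 (n : ℝ) with hℓ
  have hℓ1 : 1 ≤ ℓ := by
    rw [hℓ, Real.le_logb_iff_rpow_le (by norm_num) (by linarith), Real.rpow_one]
    exact hnR
  have hNn : (N : ℝ) ≤ n := by
    refine hcon.le.trans ?_
    have : (n : ℝ) / ℓ ≤ n := div_le_self (by linarith) hℓ1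
    have h0 : 0 ≤ (n : ℝ) / ℓ := by positivity
    nlinarith
  have hlogN : Real.logb 2 (N : ℝ) ≤ ℓ := Real.logb_le_logb_of_le (by norm_num) hN0 hNn
  have h3 : (N : ℝ) * Real.logb 2 N ≤ N * ℓ := by gcongr
  have h4 : (N : ℝ) * ℓ < (1 - e) * n := by
    have := mul_lt_mul_of_pos_right hcon (by linarith : 0 < ℓ)
    have e1 : (1 - e) * (n / ℓ) * ℓ = (1 - e) * n := by
      field_simp
    linarith
  linarith

theorem upper_real (e : ℝ) (he : 0 < e) (he1 : e < 1) : ∀ᶠ n : ℕ in atTop,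
    (R n : ℝ) ≤ (1 + 2 * e) * (n / Real.logb 2 n) := by
  obtain ⟨N0, hN0⟩ := eventually_atTop.1 (H866R3.Edge.upper_exists (e / 4) (by positivity)
    (by linarith))
  have hcast : Tendsto (fun N : ℕ => (N : ℝ)) atTop atTop := tendsto_natCast_atTop_atTop
  have e1 : ∀ᶠ n : ℕ in atTop, Real.logb 2 (n : ℝ) ≤ (n : ℝ) ^ (e / 4) := by
    have := (isLittleO_log_rpow_atTop (r := e / 4) (by positivity)).bound
      (c := Real.log 2) (Real.log_pos (by norm_num))
    have h2 := hcast.eventually this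
    filter_upwards [h2, eventually_ge_atTop 1] with N hN hN1
    have h3 : ‖(N : ℝ) ^ (e / 4)‖ = (N : ℝ) ^ (e / 4) := by
      rw [Real.norm_eq_abs, abs_of_nonneg (Real.rpow_nonneg (by positivity) _)]
    rw [h3] at hN
    have hl : 0 < Real.log 2 := Real.log_pos (by norm_num)
    rw [Real.logb, div_le_iff₀ hl]
    refine (le_abs_self _).trans (hN.trans (le_of_eq ?_))
    ring
  have e2 : ∀ᶠ n : ℕ in atTop, (N0 : ℝ) ≤ (n : ℝ) ^ (1 - e / 4) :=
    ((tendsto_rpow_atTop (by linarith : 0 < 1 - e / 4)).comp hcast).eventually_ge_atTop _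
  have e3 : ∀ᶠ n : ℕ in atTop, 1 / e ≤ (n : ℝ) ^ (1 - e / 4) :=
    ((tendsto_rpow_atTop (by linarith : 0 < 1 - e / 4)).comp hcast).eventually_ge_atTop _
  filter_upwards [e1, e2, e3, eventually_ge_atTop 2] with n h1 h2 h3 h4
  have hnR : (2 : ℝ) ≤ n := by exact_mod_cast h4
  have hn0 : (0 : ℝ) < n := by linarith
  set ℓ := Real.logb 2 (n : ℝ) with hℓ
  have hℓ1 : 1 ≤ ℓ := by
    rw [hℓ, Real.le_logb_iff_rpow_le (by norm_num) (by linarith), Real.rpow_one]
    exact hnR
  have hℓ0 : 0 < ℓ := by linarith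
  have hkey : (n : ℝ) ^ (1 - e / 4) ≤ n / ℓ := by
    rw [le_div_iff₀ hℓ0]
    calc (n : ℝ) ^ (1 - e / 4) * ℓ ≤ (n : ℝ) ^ (1 - e / 4) * (n : ℝ) ^ (e / 4) := by
          gcongr
      _ = n := by
          rw [← Real.rpow_add hn0]
          simp
  set N := ⌈(1 + e) * (n / ℓ)⌉₊ with hN
  have hNge : (1 + e) * (n / ℓ) ≤ N := Nat.le_ceil _
  have hNlt : (N : ℝ) < (1 + e) * (n / ℓ) + 1 := Nat.ceil_lt_add_one (by positivity)
  have hnℓ0 : 0 < (n : ℝ) / ℓ := by positivity
  have hNbig : (n : ℝ) ^ (1 - e / 4) ≤ N := by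
    refine hkey.trans (le_trans ?_ hNge)
    nlinarith
  have hNN0 : N0 ≤ N := by
    have : (N0 : ℝ) ≤ N := h2.trans hNbig
    exact_mod_cast this
  obtain ⟨q, d, s, J, hc, hJ⟩ := hN0 N hNN0
  have hlogN : (1 - e / 4) * ℓ ≤ Real.logb 2 (N : ℝ) := by
    have : Real.logb 2 ((n : ℝ) ^ (1 - e / 4)) ≤ Real.logb 2 (N : ℝ) :=
      Real.logb_le_logb_of_le (by norm_num) (Real.rpow_pos_of_pos hn0 _) hNbig
    rw [Real.logb_rpow_eq_mul_logb_of_pos hn0] at this
    exact this
  have hedges : (n : ℝ) ≤ ((J * d * s : ℕ) : ℝ) := by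
    refine le_trans ?_ hJ
    have h5 : ((1 + e) * (n / ℓ)) * ((1 - e / 4) * ℓ) ≤ N * Real.logb 2 (N : ℝ) := by
      apply mul_le_mul hNge hlogN _ (by positivity)
      apply mul_nonneg (by linarith) hℓ0.le
    have h6 : ((1 + e) * (n / ℓ)) * ((1 - e / 4) * ℓ) = (1 + e) * (1 - e / 4) * n := by
      field_simp
    rw [h6] at h5
    have h7 : (1 - e / 4) * ((1 + e) * (1 - e / 4) * n) ≤
        (1 - e / 4) * (N * Real.logb 2 (N : ℝ)) :=
      mul_le_mul_of_nonneg_left h5 (by linarith)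
    refine le_trans ?_ h7
    have h8 : 1 ≤ (1 - e / 4) * ((1 + e) * (1 - e / 4)) := by
      nlinarith [mul_pos he he, mul_pos (mul_pos he he) he]
    nlinarith
  have hle : n ≤ J * d * s := by exact_mod_cast hedges
  have hR : (R n : ℝ) ≤ N := by exact_mod_cast R_le hc hle
  have h9 : 1 ≤ e * (n / ℓ) := by
    have := h3.trans hkey
    rw [div_le_iff₀ he] at this
    linarith
  linarith

/-- `R(n) = (1 + o(1)) n / log_2 n`. -/
theorem result : Tendsto (fun n : ℕ => (R n : ℝ) / (n / Real.logb 2 n)) atTop (𝓝 1) := by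
  rw [Metric.tendsto_nhds]
  intro e he
  have he4 : 0 < min (e / 4) (1 / 2) := by positivity
  have he5 : min (e / 4) (1 / 2) < 1 := lt_of_le_of_lt (min_le_right _ _) (by norm_num)
  have he6 : min (e / 4) (1 / 2) ≤ e / 4 := min_le_left _ _
  filter_upwards [upper_real _ he4 he5, lower_real _ he4 he5, eventually_ge_atTop 2]
    with n h1 h2 h3
  have hnR : (2 : ℝ) ≤ n := by exact_mod_cast h3
  have hℓ1 : 1 ≤ Real.logb 2 (n : ℝ) := by
    rw [Real.le_logb_iff_rpow_le (by norm_num) (by linarith), Real.rpow_one]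
    exact hnR
  have hpos : 0 < (n : ℝ) / Real.logb 2 n := by positivity
  rw [Real.dist_eq, abs_lt]
  constructor
  · rw [lt_sub_iff_add_lt, lt_div_iff₀ hpos]
    nlinarith
  · rw [sub_lt_iff_lt_add, div_lt_iff₀ hpos]
    nlinarith

end Pool.Agent.Results.MP_9bed89_co.EdgeAsymptotic
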